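import Mathlib
import Pool.Agent.V35.WAE
import Pool.Agent.Y696.BL.Fin

/-!
# Integral points of all covers of schemes over semiabelian varieties, in almost every direction

`K ⊆ L` are number fields, `n ≥ 1`, and `V` runs over all schemes of the following form. `G = E_1 × … × E_r × G_m^s`
with elliptic curves `E_i : y² = x³ + a_i x` or `y² = x³ + b_i`, `V` is given in `G × 𝔸ⁿ × 𝔸^m` by equations
`G_e(P, u; x) = 0`, `w_i² = F_i(P, u; x)` over `𝓞 K`, the `G_e` and `F_i` being multihomogeneous in the coordinates of the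
`E_i` in the plane, the `F_i` of even degrees, and condition (i) holds: all entire curves in `V` lie in a closed subset `V'`
that contains no fibre of `G × 𝔸ⁿ → G`. `S` runs over the finite sets of primes of `L`.

We consider the `x ∈ (𝓞 L)ⁿ` for which there are `S`-units `z_i` and an `S`-integral point of `V` above
`(z_1 x_1, …, z_n x_n)`. With a basis `ω` of `𝓞 L`, `x` is a point of `ℤ^(nN)`, `N = [L : ℚ]`. For almost every
`α ∈ ℝ^(nN)`, all rational numbers `b > 1`, ALL `V` as above and all `S` there is `δ > 0` such that for large `k` no `x` of this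
kind has a distance at most `exp (δ k / log k)` from `b ^ k α`.

Proof: the bound for the number of the `x` of this kind in a box (`Pool.Agent.Y696.BL.part1`, used by the starting result
IntegralPointsOverSemiabelian), the Borel-Cantelli argument of `Pool.Agent.V35.WAE`, and the countability of the data.
-/

set_option autoImplicit false

namespace Pool.Agent.Results.MP_e97a4d_nt.CoversAlmostEveryDirection

open MvPolynomial NumberField IsDedekindDomain Pool.Agent.H901R3.MS Pool.Agent.W659 Pool.Agent.W659.SA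
open Pool.Agent.Y696.BL MeasureTheory

/-- there is `δ > 0` such that for large `k` no integer vector at distance at most `exp (δ k / log k)` (in the maximum norm)
from `b ^ k α` has the property `P` -/
def FreeNear {ι : Type} (P : (ι → ℤ) → Prop) (b : ℝ) (α : ι → ℝ) : Prop :=
  ∃ δ : ℝ, 0 < δ ∧ ∃ k0 : ℕ, ∀ k : ℕ, k0 ≤ k → ∀ c : ι → ℤ,
    (∀ j, |(c j : ℝ) - b ^ k * α j| ≤ Real.exp (δ * (k / Real.log k))) → ¬ P c

/-- there are `S`-units `z_1, …, z_n` and an `S`-integral point of `V` above `(z_1 x_1, …, z_n x_n)`, where `x ∈ (𝓞 L)ⁿ` has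
the coordinates `c` -/
def PointAbove (K : Type) [Field K] {L : Type} [Field L] [NumberField L] [Algebra K L]
    (S : Set (HeightOneSpectrum (𝓞 L))) {N : ℕ} (ω : Module.Basis (Fin N) ℤ (𝓞 L)) {r s n q m : ℕ} (a b : Fin r → ℤ)
    (G : Fin q → Pol (𝓞 K) r s n) (F : Fin m → Pol (𝓞 K) r s n) (c : Fin n × Fin N → ℤ) : Prop :=
  ∃ z : Fin n → Lˣ, (∀ k, z k ∈ S.unit L) ∧
    IntAbove K S a b G F (fun k => ((z k : Lˣ) : L) * ((vec ω c k : 𝓞 L) : L))

/-- `V'` contains no fibre: for no `(P, u)` do all `G'_l(P, u; x)` vanish identically in `x`. -/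
def ContainsNoFibre {K : Type} [Field K] (σ : K →+* ℂ) {r s n q' : ℕ} (a b : Fin r → ℤ)
    (G' : Fin q' → Pol (𝓞 K) r s n) : Prop :=
  ∀ (P : Fin r → Fin 3 → ℂ) (u : Fin s → ℂ), (∀ i, FD.OnE (a i) (b i) (P i)) →
    (∀ l, u l ≠ 0) → ∃ (x : Fin n → ℂ) (l : Fin q'), vl (toC σ) (G' l) P u x ≠ 0

/-- `V` is of the form described above, and all entire curves in `V` lie in some `V'` that contains no fibre -/
def ConditionI {K : Type} [Field K] {r s n q m : ℕ} (a b : Fin r → ℤ) (G : Fin q → Pol (𝓞 K) r s n)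
    (F : Fin m → Pol (𝓞 K) r s n) : Prop :=
  (∀ i, a i * b i = 0 ∧ (a i ≠ 0 ∨ b i ≠ 0)) ∧ (∃ d' : Fin q → Fin r → ℕ, ∀ e, MHomog (G e) (d' e)) ∧
    (∃ d : Fin m → Fin r → ℕ, (∀ e i, Even (d e i)) ∧ ∀ e, MHomog (F e) (d e)) ∧
    ∃ (σ : K →+* ℂ) (q' : ℕ) (G' : Fin q' → Pol (𝓞 K) r s n), EntireIn σ a b G F G' ∧ ContainsNoFibre σ a b G'

/-! ### Countability -/

theorem cMv (σ R : Type) [Countable σ] [CommRing R] [Countable R] : Countable (MvPolynomial σ R) := by
  rw [← Cardinal.mk_le_aleph0_iff]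
  refine (MvPolynomial.cardinalMk_le_max (σ := σ) (R := R)).trans ?_
  exact max_le (max_le (Cardinal.mk_le_aleph0) (Cardinal.mk_le_aleph0)) le_rfl

theorem cO (K : Type) [Field K] [NumberField K] : Countable (𝓞 K) :=
  (NumberField.RingOfIntegers.basis K).equivFun.injective.countable

theorem cP (K : Type) [Field K] [NumberField K] : Countable (HeightOneSpectrum (𝓞 K)) := by
  have := cO K
  have h : Function.Surjective (fun s : Finset (𝓞 K) => Ideal.span (s : Set (𝓞 K))) := by
    intro I
    exact (isNoetherianRing_iff_ideal_fg _).1 inferInstance I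
  have := h.countable
  exact Function.Injective.countable (f := fun v : HeightOneSpectrum (𝓞 K) => v.asIdeal)
    (fun v w h => HeightOneSpectrum.ext h)

/-- **Integral points of all covers of schemes over semiabelian varieties, in almost every direction.** -/
theorem result (K : Type) [Field K] [NumberField K] (L : Type) [Field L] [NumberField L] [Algebra K L] (N : ℕ)
    (ω : Module.Basis (Fin N) ℤ (𝓞 L)) (n : ℕ) (hn : 1 ≤ n) :
    ∀ᵐ α : Fin n × Fin N → ℝ, ∀ β : ℚ, 1 < β →
      ∀ (r s q m : ℕ) (a b : Fin r → ℤ) (G : Fin q → Pol (𝓞 K) r s n) (F : Fin m → Pol (𝓞 K) r s n),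
        ConditionI a b G F → ∀ S : Set (HeightOneSpectrum (𝓞 L)), S.Finite →
          FreeNear (PointAbove K S ω a b G F) β α := by
  obtain ⟨n, rfl⟩ : ∃ k, n = k + 1 := ⟨n - 1, by omega⟩
  have := cO K
  have := cP L
  have : ∀ r s : ℕ, Countable (Pol (𝓞 K) r s (n + 1)) := fun r s => cMv _ _
  have key : ∀ (β : ℚ) (r s q m : ℕ) (a b : Fin r → ℤ) (G : Fin q → Pol (𝓞 K) r s (n + 1))
      (F : Fin m → Pol (𝓞 K) r s (n + 1)) (S : Finset (HeightOneSpectrum (𝓞 L))),
      ∀ᵐ α : Fin (n + 1) × Fin N → ℝ, 1 < β → ConditionI a b G F →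
        FreeNear (PointAbove K (S : Set (HeightOneSpectrum (𝓞 L))) ω a b G F) β α := by
    intro β r s q m a b G F S
    by_cases hβ : 1 < β
    · by_cases hC : ConditionI a b G F
      · obtain ⟨hab, ⟨d', hG⟩, ⟨d, hd, hF⟩, σ, q', G', hE, hN⟩ := hC
        have hN' : ∀ (V : Fin r → Fin 3 → ℂ) (u : Fin s → ℂ), (∀ i, FD.OnE (a i) (b i) (V i)) →
            (∀ l, u l ≠ 0) → ∃ l, spc (toC σ) (G' l) V u ≠ 0 := by
          intro V u hV hu
          obtain ⟨x, l, hl⟩ := hN V u hV hu
          refine ⟨l, fun h0 => hl ?_⟩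
          rw [vl_eq, h0, map_zero]
        obtain ⟨c, hc, H₀, h⟩ := part1 hab hG hd hF hE hN' S.finite_toSet ω
        have hb : (1 : ℝ) < (β : ℝ) := by exact_mod_cast hβ
        obtain ⟨δ, hδ, hae⟩ := Pool.Agent.V35.WAE.ae_windows_exp (ι := Fin (n + 1) × Fin N)
          (P := PointAbove K (S : Set (HeightOneSpectrum (𝓞 L))) ω a b G F) hc (H₀ := H₀) (by
            intro H hH
            have h1 : Fintype.card (Fin (n + 1) × Fin N) = (n + 1) * N := by simp
            rw [h1]
            exact h H hH) (β : ℝ) hb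
        filter_upwards [hae] with α hα _ _
        obtain ⟨k0, hk0⟩ := hα
        refine ⟨δ, hδ, k0, fun k hk c hc => hk0 k hk c ?_⟩
        refine (pi_norm_le_iff_of_nonneg (Real.exp_pos _).le).2 fun i => ?_
        rw [Real.norm_eq_abs]
        exact hc i
      · exact Filter.Eventually.of_forall fun α _ h => absurd h hC
    · exact Filter.Eventually.of_forall fun α h => absurd h hβ
  simp only [← ae_all_iff] at key
  filter_upwards [key] with α hα β hβ r s q m a b G F hC S hS
  have h1 := hα β r s q m a b G F hS.toFinset hβ hC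
  simpa using h1

end Pool.Agent.Results.MP_e97a4d_nt.CoversAlmostEveryDirection
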