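import Pool.Agent.V1153.UR.Blv

/-!
# The Bombieri-Lang-Vojta equivalence for recurrent families and exponential maps, uniformly

Let `V` be the complement of a hypersurface `Q = 0` in a closed subset of projective space over a
number field `k`, given by forms `FF`; all projective and all affine varieties are of this form. Let
`V'` be the closed subset of `V` given by a form `G`. All degrees are at most `D`, and `σ` is an
embedding of `k` in the complex numbers.

The following are equivalent.

(1) `GmIn`: all nonconstant maps from the punctured line to `V_σ` have images in `V'`.

(2) `ExpMapsIn`: all nonconstant maps from affine spaces to `V_σ` with homogeneous coordinates which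
are sums of products of polynomials and exponentials of entire functions have images in `V'`.

(3) `FamBoundQ`: for all `s, r, e`, all fields `L` which contain `k` and can be embedded in the complex
numbers, all groups `H` and all families `x(h)`, `h ∈ H`, of points of `V(L)` given by iterated
recurrences of type `(s, r, e)`, at most `B(s, r, e)` different points are outside of `V'`. The bound
`B(s, r, e)` depends on `n`, `D` and the type only.

(4) `PowersIn`: the sequences of integral points of `V`, over rings generated by finitely many
algebraic numbers, with homogeneous coordinates which are polynomials in `u ^ h` and `u ^ (-h)`,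
`h ∈ ℤ`, have finitely many points outside of `V'`.

Both conditions of the Bombieri-Lang-Vojta conjecture, (i) on entire curves (`EntireIn`) and (ii) on
integral points (`IntegralFinite`), imply these properties.
-/

set_option autoImplicit false

namespace Pool.Agent.Results.MP_e97a4d_nt.UniformEquivalence

open MvPolynomial Pool.Agent.V1153.UR

/-- For all `n` and `D` there is a function `B` such that for all number fields `k`, all embeddings
`σ` of `k` in `ℂ`, all sets `FF` of forms of degree at most `D` in `n + 1` variables over `k` and all
forms `Q` and `G` of degree at most `D` over `k`, for the complement `V` of `Q = 0` in the projective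
variety with the equations `FF` the following are equivalent: all nonconstant maps from the punctured
line to `V_σ` are contained in `G = 0`; all nonconstant maps from affine spaces to `V_σ` given by sums
of products of polynomials and exponentials of entire functions are contained in `G = 0`; the families
of points of `V` given by iterated recurrences of type `(s, r, e)` have at most `B s r e` different
points outside of `G = 0`; the sequences of integral points over rings generated by finitely many
algebraic numbers, given by polynomials in the powers `u ^ h`, `h ∈ ℤ`, have finitely many points
outside of `G = 0`. These properties hold if all nonconstant entire curves in `V_σ` are contained in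
`G = 0`, and they hold if over each ring generated by finitely many algebraic numbers there are only
finitely many integral points outside of `G = 0`. -/
theorem result (n D : ℕ) : ∃ B : ℕ → ℕ → ℕ → ℕ, ∀ (k : Type) [Field k] [NumberField k]
    (σ : k →+* ℂ) (FF : Set (MvPolynomial (Fin (n + 1)) k)) (Q G : MvPolynomial (Fin (n + 1)) k),
    (∀ F ∈ FF, ∃ a ≤ D, F.IsHomogeneous a) → (∃ a ≤ D, Q.IsHomogeneous a) →
    (∃ a ≤ D, G.IsHomogeneous a) →
      List.TFAE [GmIn σ FF Q G, ExpMapsIn σ FF Q G, FamBoundQ FF Q G B, PowersIn σ FF Q G] ∧
      (EntireIn σ FF Q G ∨ IntegralFinite σ FF Q G → GmIn σ FF Q G) := by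
  obtain ⟨B, hB⟩ := fam_boundQ n D
  refine ⟨B, fun k _ _ σ FF Q G hFF hQ hG => ?_⟩
  have hom : ∀ F ∈ FF, ∃ a, F.IsHomogeneous a := fun F hF => by
    obtain ⟨a, -, ha⟩ := hFF F hF
    exact ⟨a, ha⟩
  obtain ⟨q, -, hq⟩ := id hQ
  obtain ⟨γ, -, hγ⟩ := id hG
  refine ⟨?_, ?_⟩
  · tfae_have 1 → 2 := expMapsIn_of_gm hq hγ
    tfae_have 2 → 1 := gm_of_expMapsIn hq hγ
    tfae_have 1 → 3 := hB k σ FF Q G hFF hQ hG
    tfae_have 3 → 4 := powersIn_of_fam
    tfae_have 4 → 1 := gm_of_powers hom hq
    tfae_finish
  · rintro (h | h)
    · exact gm_of_entire hom hq hγ h
    · exact gm_of_powers hom hq (powersIn_of_integral h)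

end Pool.Agent.Results.MP_e97a4d_nt.UniformEquivalence
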