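import Mathlib
import Pool.Agent.Y215.AF.Main

set_option autoImplicit false

/-!
# The Bombieri-Lang-Vojta equivalence and sums of elements of a group of finite rank

Let `V` be an affine variety over a number field `K`, the zeros in affine `n`-space of finitely many
polynomials `F` with coefficients in `𝓞 K`, and `V'` the closed subset of `V` given by `G`.  The
following are equivalent:

* every entire curve of exponential type in `V` lies in `V'`;
* every nonconstant map from the punctured line to `V` lies in `V'`;
* (`HullHeights`) for all `r` and all finitely generated groups `Γ` of algebraic numbers: the points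
  `x = ∑_{j < r} u_j V_j` of `V` outside `V'` over the algebraic numbers, where the `u_j` have a power
  in `Γ` and the `V_j` are ARBITRARY vectors of algebraic numbers, satisfy
  `h(1 : x) ≤ C (1 + h(1 : V))`, where `C` depends on `V`, `V'`, `r` and `Γ` but not on the `V_j` and
  their field of definition;
* (`HullRational`) for each number field `L`, the points as above over `L` with `h(1 : V) ≤ B` are
  finite in number;
* (`HullNear`) for fixed vectors `V_j`, ALL points over the algebraic numbers of the form
  `∑ u_j s_j V_j` with `h(1 : s) < eps d r` are finite in number, at most `A (1 + h(1 : V)) ^ e`;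
* (`UnitSumFinite`) for all number fields `L ⊇ K`, all finite sets `S` of primes and all `r`: the
  points of `V(L)` outside `V'` all of whose coordinates are sums of at most `r` `S`-units are finite
  in number. These include the `S`-integral points which are sums of `r` `S`-units.

Both conditions of the Bombieri-Lang-Vojta conjecture, (i) on entire curves and (ii) on
`S`-integral points, imply these.
-/

namespace Pool.Agent.Results.MP_e97a4d_nt.UnitSumEquivalence

open MvPolynomial NumberField
open Pool.Agent.Y215.AF Pool.Agent.TH409.SH Pool.Agent.W235.RM
open Pool.Agent.H159R3.Exp (ExpCurvesIn FinitelyManyIntegral)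

theorem result {K : Type} [Field K] [NumberField K] (σ : K →+* ℂ) {ι κ : Type} [Finite ι] {n : ℕ}
    (F : ι → MvPolynomial (Fin n) (𝓞 K)) (G : κ → MvPolynomial (Fin n) (𝓞 K)) :
    List.TFAE [ExpCurvesIn σ F G, GmCurvesIn σ F G, HullHeights F G, HullRational F G,
      HullNear eps F G, UnitSumFinite F G] ∧
    (∀ d r : ℕ, 1 ≤ d → 0 < eps d r) ∧
    (EntireCurvesIn σ F G → UnitSumFinite F G) ∧
    (FinitelyManyIntegral F G → HullHeights F G) := by
  have h := tfaeU σ F G
  refine ⟨h, eps_pos, fun he => (h.out 0 5).1 (exp_of_entire σ F G he), fun hi => ?_⟩
  have h0 := tfae σ F G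
  have h1 : GmCurvesIn σ F G := (h0.out 5 1).1 (rec_of_integral F G hi)
  have h2 : GmCurvesIn σ F G → HullHeights F G := (h.out 1 2).1
  intro _
  exact h2 h1

end Pool.Agent.Results.MP_e97a4d_nt.UnitSumEquivalence
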