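import Mathlib
import Pool.Agent.V35.WM
import Pool.Agent.Y696.BL.Fin

/-!
# Integral points in boxes and near rays, for all schemes over semiabelian varieties at once

`K ⊆ L` are number fields and `n ≥ 1`. `V` runs over all closed subschemes of `G × 𝔸ⁿ` over `𝓞 K`, where
`G = E_1 × … × E_r × G_m^s` with elliptic curves `E_i : y² = x³ + a_i x` or `y² = x³ + b_i`, given by equations
`G_e(P, u; x) = 0`, multihomogeneous in the coordinates of the `E_i` in the plane. `S` runs over the finite sets of primes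
of `L`. We consider the `x ∈ (𝓞 L)ⁿ` for which there are `S`-units `z_i` and an `S`-integral point of `V` above
`(z_1 x_1, …, z_n x_n)`. With a basis `ω` of `𝓞 L`, `x` is a point of `ℤ^(nN)`, `N = [L : ℚ]`.

Let `v_k ≥ 1` be a sequence with exponent of convergence at most `τ` (`τ = 0` for `b ^ k`, `τ = 1 / c` for `k ^ c`) and
`θ < 1`.

1. For all `α ∈ ℝ^(nN)` outside a set of Hausdorff dimension at most `τ / (1 - θ)` and ALL `V` which are quasi-finite over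
`G` (complex fibres with at most `D` points, any `D`) and all `S`, no `x` of the boxes with centre `α v_k` and side
`2 v_k ^ θ`, `k` large, is of this kind.
2. For all `α ∈ ℝ^(nN)` outside a set of dimension at most `((n - 1) N + τ) / (1 - θ)` and ALL `V` and `V'` that satisfy
condition (i) (all entire curves in `V` lie in `V'`), where `V'` contains no fibre of `G × 𝔸ⁿ → G`, the same holds.
3. Neighbourhoods of rays: let `0 ≤ θ`. For all `α` outside a set of dimension at most `1` in the case 1, respectively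
`1 + (n - 1) N / (1 - θ)` in the case 2, only finitely many `x` of this kind lie in the neighbourhood of the ray through
`α` of radius `r ^ θ` at the point `r α`.
-/

set_option autoImplicit false

namespace Pool.Agent.Results.MP_e97a4d_nt.WindowsAndRays

open MvPolynomial NumberField IsDedekindDomain Pool.Agent.H901R3.MS Pool.Agent.W659 Pool.Agent.W659.SA
open Pool.Agent.Y696.BL

/-- the exponent of convergence of the sequence `v` is at most `τ` -/
def ExpLe (v : ℕ → ℝ) (τ : ℝ) : Prop := ∀ t : ℝ, τ < t → Summable fun n : ℕ => (v n) ^ (-t)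

/-- for large `k` no integer vector in the box with centre `α v_k` and side `2 v_k ^ θ` has the property `P` -/
def NoneInBoxes {ι : Type} (P : (ι → ℤ) → Prop) (v : ℕ → ℝ) (θ : ℝ) (α : ι → ℝ) : Prop :=
  ∃ k0 : ℕ, ∀ k : ℕ, k0 ≤ k → ∀ c : ι → ℤ, (∀ j, |(c j : ℝ) - α j * v k| ≤ (v k) ^ θ) → ¬ P c

/-- only finitely many integer vectors with the property `P` lie in the neighbourhood of the ray through `α` of radius
`r ^ θ` at the point `r α` -/
def FewNearRay {ι : Type} (P : (ι → ℤ) → Prop) (θ : ℝ) (α : ι → ℝ) : Prop :=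
  {c : ι → ℤ | P c ∧ ∃ r : ℝ, 0 < r ∧ ∀ j, |(c j : ℝ) - r * α j| ≤ r ^ θ}.Finite

/-- there are `S`-units `z_1, …, z_n` and an `S`-integral point of `V` above `(z_1 x_1, …, z_n x_n)`, where `x ∈ (𝓞 L)ⁿ` has
the coordinates `c` -/
def PointAbove (K : Type) [Field K] {L : Type} [Field L] [NumberField L] [Algebra K L]
    (S : Set (HeightOneSpectrum (𝓞 L))) {N : ℕ} (ω : Module.Basis (Fin N) ℤ (𝓞 L)) {r s n q : ℕ} (a b : Fin r → ℤ)
    (G : Fin q → Pol (𝓞 K) r s n) (c : Fin n × Fin N → ℤ) : Prop :=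
  ∃ z : Fin n → Lˣ, (∀ k, z k ∈ S.unit L) ∧
    IntAbove (m := 0) K S a b G Fin.elim0 (fun k => ((z k : Lˣ) : L) * ((vec ω c k : 𝓞 L) : L))

/-- `V'` contains no fibre: for no `(P, u)` do all `G'_l(P, u; x)` vanish identically in `x`. -/
def ContainsNoFibre {K : Type} [Field K] (σ : K →+* ℂ) {r s n q' : ℕ} (a b : Fin r → ℤ)
    (G' : Fin q' → Pol (𝓞 K) r s n) : Prop :=
  ∀ (P : Fin r → Fin 3 → ℂ) (u : Fin s → ℂ), (∀ i, FD.OnE (a i) (b i) (P i)) →
    (∀ l, u l ≠ 0) → ∃ (x : Fin n → ℂ) (l : Fin q'), vl (toC σ) (G' l) P u x ≠ 0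

/-- all complex fibres of `V`, given by the `G_e`, over the semiabelian variety have at most `D`
points -/
def FibresAtMost {K : Type} [Field K] (σ : K →+* ℂ) {r s n q : ℕ} (a b : Fin r → ℤ)
    (G : Fin q → Pol (𝓞 K) r s n) (D : ℕ) : Prop :=
  ∀ (P : Fin r → Fin 3 → ℂ) (u : Fin s → ℂ), (∀ i, FD.OnE (a i) (b i) (P i)) →
    (∀ l, u l ≠ 0) → ∃ T : Finset (Fin n → ℂ), T.card ≤ D ∧
      ∀ x, (∀ e, vl (toC σ) (G e) P u x = 0) → x ∈ T

/-- every quasi-finite `V` over every `G` and every `S` has the property `Q` -/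
def AllQuasiFinite (K : Type) [Field K] [NumberField K] (L : Type) [Field L] [NumberField L] [Algebra K L] {N : ℕ}
    (ω : Module.Basis (Fin N) ℤ (𝓞 L)) (n : ℕ) (Q : ((Fin n × Fin N → ℤ) → Prop) → Prop) : Prop :=
  ∀ (r s q D : ℕ) (a b : Fin r → ℤ), (∀ i, a i * b i = 0 ∧ (a i ≠ 0 ∨ b i ≠ 0)) →
    ∀ (G : Fin q → Pol (𝓞 K) r s n) (d' : Fin q → Fin r → ℕ), (∀ e, MHomog (G e) (d' e)) →
    ∀ (σ : K →+* ℂ), FibresAtMost σ a b G D →
    ∀ S : Set (HeightOneSpectrum (𝓞 L)), S.Finite → Q (PointAbove K S ω a b G)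

/-- every `V` such that all entire curves in `V` lie in some `V'` that contains no fibre, and every `S`, have the
property `Q` -/
def AllEntireIn (K : Type) [Field K] [NumberField K] (L : Type) [Field L] [NumberField L] [Algebra K L] {N : ℕ}
    (ω : Module.Basis (Fin N) ℤ (𝓞 L)) (n : ℕ) (Q : ((Fin n × Fin N → ℤ) → Prop) → Prop) : Prop :=
  ∀ (r s q q' : ℕ) (a b : Fin r → ℤ), (∀ i, a i * b i = 0 ∧ (a i ≠ 0 ∨ b i ≠ 0)) →
    ∀ (G : Fin q → Pol (𝓞 K) r s n) (d' : Fin q → Fin r → ℕ), (∀ e, MHomog (G e) (d' e)) →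
    ∀ (G' : Fin q' → Pol (𝓞 K) r s n) (σ : K →+* ℂ), EntireIn (m := 0) σ a b G Fin.elim0 G' →
    ContainsNoFibre σ a b G' →
    ∀ S : Set (HeightOneSpectrum (𝓞 L)), S.Finite → Q (PointAbove K S ω a b G)

/-- 1. and 3. for quasi-finite `V` -/
def QuasiFiniteSchemes : Prop :=
  ∀ (K : Type) [Field K] [NumberField K] (L : Type) [Field L] [NumberField L] [Algebra K L] (N : ℕ)
    (ω : Module.Basis (Fin N) ℤ (𝓞 L)) (n : ℕ),
    (∀ (v : ℕ → ℝ) (τ θ : ℝ), (∀ k, 1 ≤ v k) → 0 ≤ τ → ExpLe v τ → θ < 1 →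
      ∃ X : Set (Fin n × Fin N → ℝ), dimH X ≤ ENNReal.ofReal (τ / (1 - θ)) ∧
        ∀ α : Fin n × Fin N → ℝ, α ∉ X → AllQuasiFinite K L ω n fun P => NoneInBoxes P v θ α) ∧
    (∀ θ : ℝ, 0 ≤ θ → θ < 1 → ∃ X : Set (Fin n × Fin N → ℝ), dimH X ≤ 1 ∧
        ∀ α : Fin n × Fin N → ℝ, α ∉ X → AllQuasiFinite K L ω n fun P => FewNearRay P θ α)

/-- 2. and 3. for closed `V` that satisfy condition (i) -/
def ClosedSchemes : Prop :=
  ∀ (K : Type) [Field K] [NumberField K] (L : Type) [Field L] [NumberField L] [Algebra K L] (N : ℕ)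
    (ω : Module.Basis (Fin N) ℤ (𝓞 L)) (n : ℕ), 1 ≤ n →
    (∀ (v : ℕ → ℝ) (τ θ : ℝ), (∀ k, 1 ≤ v k) → 0 ≤ τ → ExpLe v τ → θ < 1 →
      ∃ X : Set (Fin n × Fin N → ℝ), dimH X ≤ ENNReal.ofReal ((((n : ℝ) - 1) * N + τ) / (1 - θ)) ∧
        ∀ α : Fin n × Fin N → ℝ, α ∉ X → AllEntireIn K L ω n fun P => NoneInBoxes P v θ α) ∧
    (∀ θ : ℝ, 0 ≤ θ → θ < 1 → ∃ X : Set (Fin n × Fin N → ℝ),
      dimH X ≤ ENNReal.ofReal (1 + ((n : ℝ) - 1) * N / (1 - θ)) ∧
        ∀ α : Fin n × Fin N → ℝ, α ∉ X → AllEntireIn K L ω n fun P => FewNearRay P θ α)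

/-! ### Countability -/

theorem cMv (σ R : Type) [Countable σ] [CommRing R] [Countable R] : Countable (MvPolynomial σ R) := by
  rw [← Cardinal.mk_le_aleph0_iff]
  refine (MvPolynomial.cardinalMk_le_max (σ := σ) (R := R)).trans ?_
  exact max_le (max_le (Cardinal.mk_le_aleph0) (Cardinal.mk_le_aleph0)) le_rfl

theorem cO (K : Type) [Field K] [NumberField K] : Countable (𝓞 K) :=
  (NumberField.RingOfIntegers.basis K).equivFun.injective.countable

theorem cP (K : Type) [Field K] [NumberField K] : Countable (HeightOneSpectrum (𝓞 K)) := by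
  have := cO K
  have h : Function.Surjective (fun s : Finset (𝓞 K) => Ideal.span (s : Set (𝓞 K))) := by
    intro I
    exact (isNoetherianRing_iff_ideal_fg _).1 inferInstance I
  have := h.countable
  exact Function.Injective.countable (f := fun v : HeightOneSpectrum (𝓞 K) => v.asIdeal)
    (fun v w h => HeightOneSpectrum.ext h)

/-! ### Counting and dimension -/

/-- the number of the vectors of size at most `H` with the property `P` is `O(H ^ (s + ε))` -/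
def CountLe {ι : Type} (P : (ι → ℤ) → Prop) (s : ℝ) : Prop :=
  ∀ ε : ℝ, 0 < ε → ∃ C : ℝ, ∃ H₀ : ℕ, ∀ H : ℕ, H₀ ≤ H →
    (({c : ι → ℤ | (∀ i, |c i| ≤ H) ∧ P c}.ncard : ℕ) : ℝ) ≤ C * (H : ℝ) ^ (s + ε)

theorem box_finite {ι : Type} [Fintype ι] (P : (ι → ℤ) → Prop) (H : ℕ) :
    {c : ι → ℤ | (∀ i, |c i| ≤ (H : ℤ)) ∧ P c}.Finite := by
  classical
  refine Set.Finite.subset (Fintype.piFinset fun _ : ι => Finset.Icc (-(H : ℤ)) H).finite_toSet ?_
  intro c hc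
  rw [Finset.mem_coe, Fintype.mem_piFinset]
  intro s
  rw [Finset.mem_Icc]
  exact abs_le.1 (hc.1 s)

theorem thin_of {ι : Type} [Fintype ι] {P : (ι → ℤ) → Prop} {s : ℝ} (hs : 0 ≤ s) (h : CountLe P s) :
    Pool.Agent.V35.WM.Thin (V := ι → ℝ) {c : ι → ℤ | P c} (fun c i => (c i : ℝ)) s := by
  intro ε hε
  obtain ⟨C, H₀, hC⟩ := h ε hε
  refine ⟨|C| * ((H₀ : ℝ) + 1) ^ (s + ε), fun X hX => ?_⟩
  set H : ℕ := max ⌊X⌋₊ H₀ with hH
  have hsub : {t : ι → ℤ | t ∈ {c : ι → ℤ | P c} ∧ ‖(fun i => (t i : ℝ) : ι → ℝ)‖ ≤ X} ⊆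
      {c : ι → ℤ | (∀ i, |c i| ≤ (H : ℤ)) ∧ P c} := by
    rintro t ⟨ht, hn⟩
    refine ⟨fun i => ?_, ht⟩
    have h1 : ‖((t i : ℤ) : ℝ)‖ ≤ X := (norm_le_pi_norm (fun i => (t i : ℝ)) i).trans hn
    rw [Real.norm_eq_abs, ← Int.cast_abs] at h1
    have h2 : (((t i).natAbs : ℕ) : ℝ) ≤ X := by
      rw [Nat.cast_natAbs]
      exact h1
    have h3 : (t i).natAbs ≤ ⌊X⌋₊ := Nat.le_floor h2
    have h4 : (t i).natAbs ≤ H := h3.trans (le_max_left _ _)
    rw [← Int.natCast_natAbs]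
    exact_mod_cast h4
  have hfin := box_finite P H
  refine ⟨hfin.subset hsub, ?_⟩
  have h1 := hC H (le_max_right _ _)
  have h2 : (({t : ι → ℤ | t ∈ {c : ι → ℤ | P c} ∧ ‖(fun i => (t i : ℝ) : ι → ℝ)‖ ≤ X}.ncard : ℕ) : ℝ) ≤
      (({c : ι → ℤ | (∀ i, |c i| ≤ (H : ℤ)) ∧ P c}.ncard : ℕ) : ℝ) := by
    exact_mod_cast Set.ncard_le_ncard hsub hfin
  have h3 : (H : ℝ) ≤ ((H₀ : ℝ) + 1) * X := by
    rw [hH]
    push_cast
    refine max_le ?_ ?_
    · have : ((⌊X⌋₊ : ℕ) : ℝ) ≤ X := Nat.floor_le (by linarith)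
      have h0 : (0 : ℝ) ≤ H₀ := Nat.cast_nonneg _
      nlinarith
    · have h0 : (0 : ℝ) ≤ H₀ := Nat.cast_nonneg _
      nlinarith
  calc _ ≤ _ := h2
    _ ≤ C * (H : ℝ) ^ (s + ε) := h1
    _ ≤ |C| * (((H₀ : ℝ) + 1) * X) ^ (s + ε) := by
        refine mul_le_mul (le_abs_self C) ?_ (by positivity) (abs_nonneg _)
        exact Real.rpow_le_rpow (Nat.cast_nonneg _) h3 (by linarith)
    _ = _ := by
        rw [Real.mul_rpow (by positivity) (by linarith)]
        ring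

theorem windows {J ι : Type} [Countable J] [Fintype ι] (P : J → (ι → ℤ) → Prop) {s : ℝ} (hs : 0 ≤ s)
    {v : ℕ → ℝ} {τ θ : ℝ} (hpos : ∀ n, 1 ≤ v n) (hτ : 0 ≤ τ) (hv : ExpLe v τ) (hθ : θ < 1) :
    ∃ X : Set (ι → ℝ), dimH X ≤ ENNReal.ofReal ((s + τ) / (1 - θ)) ∧
      ∀ α : ι → ℝ, α ∉ X → ∀ j, CountLe (P j) s → NoneInBoxes (P j) v θ α := by
  classical
  refine ⟨⋃ j : J, if CountLe (P j) s then
    Pool.Agent.V35.WM.BadWin (V := ι → ℝ) {c : ι → ℤ | P j c} (fun c i => (c i : ℝ)) v θ else ∅, ?_, ?_⟩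
  · rw [dimH_iUnion]
    refine iSup_le fun j => ?_
    split_ifs with h
    · exact Pool.Agent.V35.WM.dim_badWin hpos hτ hv hs hθ (thin_of hs h)
    · rw [dimH_empty]
      exact bot_le
  · intro α hα j hj
    have h1 : α ∉ Pool.Agent.V35.WM.BadWin (V := ι → ℝ) {c : ι → ℤ | P j c} (fun c i => (c i : ℝ)) v θ := by
      intro h
      refine hα (Set.mem_iUnion.2 ⟨j, ?_⟩)
      rw [if_pos hj]
      exact h
    unfold Pool.Agent.V35.WM.BadWin at h1
    rw [Set.mem_ofPred_eq] at h1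
    push Not at h1
    obtain ⟨k0, hk0⟩ := h1
    refine ⟨k0, fun k hk c hc hPc => ?_⟩
    have h2 := hk0 k hk c hPc
    refine absurd ?_ (not_le.2 h2)
    have h3 : 0 ≤ (v k) ^ θ := Real.rpow_nonneg (by linarith [hpos k]) _
    refine (pi_norm_le_iff_of_nonneg h3).2 fun i => ?_
    have h4 := hc i
    rw [Real.norm_eq_abs]
    simpa [mul_comm] using h4

theorem rays {J ι : Type} [Countable J] [Fintype ι] (P : J → (ι → ℤ) → Prop) {s : ℝ} (hs : 0 ≤ s)
    {θ : ℝ} (hθ0 : 0 ≤ θ) (hθ : θ < 1) :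
    ∃ X : Set (ι → ℝ), dimH X ≤ ENNReal.ofReal (1 + s / (1 - θ)) ∧
      ∀ α : ι → ℝ, α ∉ X → ∀ j, CountLe (P j) s → FewNearRay (P j) θ α := by
  classical
  refine ⟨⋃ j : J, if CountLe (P j) s then
    Pool.Agent.V35.WM.BadRay (V := ι → ℝ) {c : ι → ℤ | P j c} (fun c i => (c i : ℝ)) θ else ∅, ?_, ?_⟩
  · rw [dimH_iUnion]
    refine iSup_le fun j => ?_
    split_ifs with h
    · exact Pool.Agent.V35.WM.dim_badRay hs hθ0 hθ (thin_of hs h)
    · rw [dimH_empty]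
      exact bot_le
  · intro α hα j hj
    have h1 : α ∉ Pool.Agent.V35.WM.BadRay (V := ι → ℝ) {c : ι → ℤ | P j c} (fun c i => (c i : ℝ)) θ := by
      intro h
      refine hα (Set.mem_iUnion.2 ⟨j, ?_⟩)
      rw [if_pos hj]
      exact h
    unfold Pool.Agent.V35.WM.BadRay at h1
    rw [Set.mem_ofPred_eq, Set.not_infinite] at h1
    refine h1.subset ?_
    rintro c ⟨hc, r, hr, h2⟩
    refine ⟨hc, r, hr, ?_⟩
    have h3 : 0 ≤ r ^ θ := Real.rpow_nonneg hr.le _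
    refine (pi_norm_le_iff_of_nonneg h3).2 fun i => ?_
    rw [Real.norm_eq_abs]
    simpa using h2 i

/-! ### The counts -/

lemma pow_le_lin {τ : ℝ} (h0 : 0 ≤ τ) (hτ : τ < 1) {ε : ℝ} (hε : 0 < ε) :
    ∃ C : ℝ, ∀ x : ℝ, 0 < x → x ^ τ ≤ ε * x + C := by
  have h1τ : 0 < 1 - τ := by linarith
  have hb : 0 < ε ^ (-(1 / (1 - τ))) := Real.rpow_pos_of_pos hε _
  refine ⟨(ε ^ (-(1 / (1 - τ)))) ^ τ, fun x hx => ?_⟩
  rcases le_or_gt x (ε ^ (-(1 / (1 - τ)))) with h | h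
  · have := Real.rpow_le_rpow hx.le h h0
    nlinarith
  · have h2 : x ^ (τ - 1) ≤ ε := by
      have h3 := Real.rpow_le_rpow_of_nonpos hb h.le (by linarith : τ - 1 ≤ 0)
      rw [← Real.rpow_mul hε.le] at h3
      have h4 : -(1 / (1 - τ)) * (τ - 1) = 1 := by
        field_simp
        ring
      rwa [h4, Real.rpow_one] at h3
    have h5 : x ^ τ = x ^ (τ - 1) * x := by
      rw [Real.rpow_sub_one hx.ne']
      field_simp
    rw [h5]
    have h6 : 0 ≤ (ε ^ (-(1 / (1 - τ)))) ^ τ := by positivity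
    nlinarith

lemma exp_le {τ : ℝ} (h0 : 0 ≤ τ) (hτ : τ < 1) {ε : ℝ} (hε : 0 < ε) :
    ∃ C : ℝ, 0 < C ∧ ∀ H : ℕ, 3 ≤ H → Real.exp ((Real.log H) ^ τ) ≤ C * (H : ℝ) ^ ε := by
  obtain ⟨C, hC⟩ := pow_le_lin h0 hτ hε
  refine ⟨Real.exp C, Real.exp_pos _, fun H hH => ?_⟩
  have hH3 : (3 : ℝ) ≤ H := by exact_mod_cast hH
  have hlog : 0 < Real.log H := Real.log_pos (by linarith)
  have h1 := hC _ hlog
  rw [Real.rpow_def_of_pos (by linarith : (0 : ℝ) < H), ← Real.exp_add]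
  apply Real.exp_le_exp.2
  linarith

/-- A polynomial of degree at most `k` has at most `k (2 H + 1) ^ (N n)` zeros of size at most `H` in `(𝓞 L) ^ (n + 1)`. -/
lemma zeros_box {L : Type} [Field L] [NumberField L] {N n k : ℕ} (ω : Module.Basis (Fin N) ℤ (𝓞 L))
    {f : MvPolynomial (Fin (n + 1)) L} (hf : f ≠ 0) (hk : f.totalDegree ≤ k) (H : ℕ) :
    {c : Fin (n + 1) × Fin N → ℤ | (∀ i, |c i| ≤ (H : ℤ)) ∧
      eval (fun i => ((vec ω c i : 𝓞 L) : L)) f = 0}.ncard ≤ k * (2 * H + 1) ^ (N * n) := by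
  classical
  set B : Finset (Fin N → ℤ) := Fintype.piFinset fun _ : Fin N => Finset.Icc (-(H : ℤ)) H with hB
  set g : (Fin N → ℤ) → L := fun e => ((∑ j, e j • ω j : 𝓞 L) : L) with hg
  have hginj : Function.Injective g := by
    intro e e' h
    have h1 : (∑ j, e j • ω j : 𝓞 L) = ∑ j, e' j • ω j := by
      have := (RingOfIntegers.coe_injective (K := L)) h
      exact this
    have h4 : ∀ (e : Fin N → ℤ) (j : Fin N), (ω.repr (∑ j, e j • ω j)) j = e j := fun e j =>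
      congrFun (ω.repr_sum_self e) j
    funext j
    rw [← h4 e j, h1, h4 e' j]
  have hBc : B.card = (2 * H + 1) ^ N := by
    rw [hB, Fintype.card_piFinset]
    simp only [Int.card_Icc, Finset.prod_const, Finset.card_univ, Fintype.card_fin]
    congr 1
    omega
  set S : Finset L := B.image g with hS
  have hSc : S.card = (2 * H + 1) ^ N := by
    rw [hS, Finset.card_image_of_injective _ hginj, hBc]
  have hSpos : 0 < S.card := by rw [hSc]; positivity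
  have key := MvPolynomial.schwartz_zippel_totalDegree hf S
  set Z := {x ∈ Fintype.piFinset fun _ : Fin (n + 1) => S | eval x f = 0} with hZ
  have h1 : (Z.card : ℚ≥0) ≤ f.totalDegree * (S.card : ℚ≥0) ^ n := by
    have hS' : (0 : ℚ≥0) < S.card := by exact_mod_cast hSpos
    rw [div_le_div_iff₀ (by positivity) hS'] at key
    rw [pow_succ, ← mul_assoc] at key
    exact le_of_mul_le_mul_right key hS'
  have h2 : Z.card ≤ f.totalDegree * S.card ^ n := by exact_mod_cast h1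
  have h3 : {c : Fin (n + 1) × Fin N → ℤ | (∀ i, |c i| ≤ (H : ℤ)) ∧
      eval (fun i => ((vec ω c i : 𝓞 L) : L)) f = 0}.ncard ≤ Z.card := by
    rw [← Set.ncard_coe_finset]
    refine Set.ncard_le_ncard_of_injOn (fun c i => ((vec ω c i : 𝓞 L) : L)) ?_ ?_ (Finset.finite_toSet _)
    · rintro c ⟨hc, hc0⟩
      rw [Finset.mem_coe, hZ, Finset.mem_filter, Fintype.mem_piFinset]
      refine ⟨fun i => ?_, hc0⟩
      rw [hS, Finset.mem_image]
      refine ⟨fun j => c (i, j), ?_, rfl⟩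
      rw [hB, Fintype.mem_piFinset]
      intro j
      rw [Finset.mem_Icc]
      exact abs_le.1 (hc (i, j))
    · intro c _ c' _ h
      funext p
      obtain ⟨i, j⟩ := p
      have h4 : g (fun j => c (i, j)) = g (fun j => c' (i, j)) := congrFun h i
      exact congrFun (hginj h4) j
  refine h3.trans (h2.trans ?_)
  rw [hSc, ← pow_mul]
  exact Nat.mul_le_mul_right _ hk

/-! ### The theorem -/

section data

variable (K : Type) [Field K] (L : Type) [Field L] [NumberField L] [Algebra K L]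

/-- the data that define `V` and `S` -/
abbrev Data (n : ℕ) : Type := (t : ℕ × ℕ × ℕ) × ((Fin t.1 → ℤ) × (Fin t.1 → ℤ)) ×
  (Fin t.2.2 → Pol (𝓞 K) t.1 t.2.1 n) × Finset (HeightOneSpectrum (𝓞 L))

/-- the property of the vectors -/
def prop {N : ℕ} (ω : Module.Basis (Fin N) ℤ (𝓞 L)) {n : ℕ} (j : Data K L n) (c : Fin n × Fin N → ℤ) : Prop :=
  PointAbove K (j.2.2.2 : Set (HeightOneSpectrum (𝓞 L))) ω j.2.1.1 j.2.1.2 j.2.2.1 c

omit [Algebra K L] in
theorem countable_data [NumberField K] (n : ℕ) : Countable (Data K L n) := by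
  have := cO K
  have := cP L
  have h : ∀ r s : ℕ, Countable (Pol (𝓞 K) r s n) := fun r s => cMv _ _
  infer_instance

end data

lemma count_quasiFinite {K : Type} [Field K] [NumberField K] {L : Type} [Field L] [NumberField L] [Algebra K L] {N : ℕ}
    (ω : Module.Basis (Fin N) ℤ (𝓞 L)) {n r s q D : ℕ} {a b : Fin r → ℤ}
    (hab : ∀ i, a i * b i = 0 ∧ (a i ≠ 0 ∨ b i ≠ 0)) {G : Fin q → Pol (𝓞 K) r s n} {d' : Fin q → Fin r → ℕ}
    (hG : ∀ e, MHomog (G e) (d' e)) {σ : K →+* ℂ} (hD : FibresAtMost σ a b G D)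
    {S : Set (HeightOneSpectrum (𝓞 L))} (hS : S.Finite) : CountLe (PointAbove K S ω a b G) 0 := by
  intro ε hε
  obtain ⟨τ, hτ0, hτ1, H₀, hH3, h⟩ := part3 hab hG hD hS ω
  obtain ⟨C, hC0, hC⟩ := exp_le hτ0.le hτ1 hε
  refine ⟨D * C, H₀, fun H hH => ?_⟩
  refine (h H hH).trans ?_
  rw [zero_add, mul_assoc]
  exact mul_le_mul_of_nonneg_left (hC H (hH3.trans hH)) (Nat.cast_nonneg _)

lemma count_entireIn {K : Type} [Field K] [NumberField K] {L : Type} [Field L] [NumberField L] [Algebra K L] {N : ℕ}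
    (ω : Module.Basis (Fin N) ℤ (𝓞 L)) {n r s q q' : ℕ} (hn : 1 ≤ n) {a b : Fin r → ℤ}
    (hab : ∀ i, a i * b i = 0 ∧ (a i ≠ 0 ∨ b i ≠ 0)) {G : Fin q → Pol (𝓞 K) r s n} {d' : Fin q → Fin r → ℕ}
    (hG : ∀ e, MHomog (G e) (d' e)) {G' : Fin q' → Pol (𝓞 K) r s n} {σ : K →+* ℂ}
    (hE : EntireIn (m := 0) σ a b G Fin.elim0 G') (hN : ContainsNoFibre σ a b G')
    {S : Set (HeightOneSpectrum (𝓞 L))} (hS : S.Finite) :
    CountLe (PointAbove K S ω a b G) (((n : ℝ) - 1) * N) := by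
  classical
  obtain ⟨n, rfl⟩ : ∃ k, n = k + 1 := ⟨n - 1, by omega⟩
  intro ε hε
  have hN' : ∀ (V : Fin r → Fin 3 → ℂ) (u : Fin s → ℂ), (∀ i, FD.OnE (a i) (b i) (V i)) →
      (∀ l, u l ≠ 0) → ∃ l, spc (toC σ) (G' l) V u ≠ 0 := by
    intro V u hV hu
    obtain ⟨x, l, hl⟩ := hN V u hV hu
    refine ⟨l, fun h0 => hl ?_⟩
    rw [vl_eq, h0, map_zero]
  set k : ℕ := Finset.univ.sup fun e => (G e).totalDegree with hk
  obtain ⟨τ, hτ0, hτ1, H₀, hH3, h⟩ := part2 (k := k) hab hG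
    (fun e => Finset.le_sup (f := fun e => (G e).totalDegree) (Finset.mem_univ e)) hE hN' hS ω
  obtain ⟨C, hC0, hC⟩ := exp_le hτ0.le hτ1 hε
  refine ⟨C * (k * 3 ^ (N * n)), H₀, fun H hH => ?_⟩
  have hH1 : (1 : ℝ) ≤ H := by
    have : 1 ≤ H := by omega
    exact_mod_cast this
  obtain ⟨Z, hZ, hZ1, hZ2⟩ := h H hH
  have hsub : {c : Fin (n + 1) × Fin N → ℤ | (∀ i, |c i| ≤ (H : ℤ)) ∧ PointAbove K S ω a b G c} ⊆
      ⋃ f ∈ Z, {c : Fin (n + 1) × Fin N → ℤ | (∀ i, |c i| ≤ (H : ℤ)) ∧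
        eval (fun i => ((vec ω c i : 𝓞 L) : L)) f = 0} := by
    rintro c ⟨hc, hP⟩
    obtain ⟨f, hf, hf0⟩ := hZ2 c ⟨hc, hP⟩
    exact Set.mem_iUnion₂.2 ⟨f, hf, hc, hf0⟩
  have hfin : (⋃ f ∈ Z, {c : Fin (n + 1) × Fin N → ℤ | (∀ i, |c i| ≤ (H : ℤ)) ∧
        eval (fun i => ((vec ω c i : 𝓞 L) : L)) f = 0}).Finite :=
    Z.finite_toSet.biUnion fun f _ => box_finite _ H
  have h1 : {c : Fin (n + 1) × Fin N → ℤ | (∀ i, |c i| ≤ (H : ℤ)) ∧ PointAbove K S ω a b G c}.ncard ≤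
      Z.card * (k * (2 * H + 1) ^ (N * n)) := by
    refine (Set.ncard_le_ncard hsub hfin).trans ?_
    refine (Finset.set_ncard_biUnion_le _ _).trans ?_
    rw [← smul_eq_mul]
    exact Finset.sum_le_card_nsmul _ _ _ fun f hf => zeros_box ω (hZ1 f hf).1 (hZ1 f hf).2 H
  have h2 : ((2 * (H : ℝ) + 1)) ^ (N * n) ≤ 3 ^ (N * n) * (H : ℝ) ^ ((((n + 1 : ℕ) : ℝ) - 1) * N) := by
    have e1 : ((((n + 1 : ℕ) : ℝ) - 1) * N) = ((N * n : ℕ) : ℝ) := by push_cast; ring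
    rw [e1, Real.rpow_natCast, ← mul_pow]
    exact pow_le_pow_left₀ (by positivity) (by linarith) _
  calc (({c : Fin (n + 1) × Fin N → ℤ | (∀ i, |c i| ≤ (H : ℤ)) ∧ PointAbove K S ω a b G c}.ncard : ℕ) : ℝ)
      ≤ ((Z.card * (k * (2 * H + 1) ^ (N * n)) : ℕ) : ℝ) := by exact_mod_cast h1
    _ = Z.card * (k * (2 * (H : ℝ) + 1) ^ (N * n)) := by push_cast; ring
    _ ≤ (C * (H : ℝ) ^ ε) * (k * (3 ^ (N * n) * (H : ℝ) ^ ((((n + 1 : ℕ) : ℝ) - 1) * N))) := by
        refine mul_le_mul (hZ.trans (hC H (hH3.trans hH))) ?_ (by positivity) (by positivity)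
        exact mul_le_mul_of_nonneg_left h2 (Nat.cast_nonneg _)
    _ = C * (k * 3 ^ (N * n)) * (H : ℝ) ^ ((((n + 1 : ℕ) : ℝ) - 1) * N + ε) := by
        rw [Real.rpow_add (by linarith)]
        ring

/-- **Integral points in boxes and near rays, for all schemes over semiabelian varieties at once**; the sequences
`(k + 1) ^ c` and `b ^ k` have exponent of convergence `1 / c` and `0`. -/
theorem result : QuasiFiniteSchemes ∧ ClosedSchemes ∧
    (∀ c : ℝ, 0 < c → ExpLe (fun k : ℕ => ((k : ℝ) + 1) ^ c) (1 / c)) ∧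
    (∀ b : ℝ, 1 < b → ExpLe (fun k : ℕ => b ^ k) 0) := by
  refine ⟨?_, ?_, Pool.Agent.V35.WM.expLe_pow, Pool.Agent.V35.WM.expLe_geom⟩
  · intro K _ _ L _ _ _ N ω n
    have := countable_data K L n
    refine ⟨fun v τ θ hpos hτ hv hθ => ?_, fun θ hθ0 hθ => ?_⟩
    · obtain ⟨X, hX, h⟩ := windows (prop K L ω (n := n)) (le_refl (0 : ℝ)) hpos hτ hv hθ
      refine ⟨X, by rwa [zero_add] at hX, fun α hα => ?_⟩
      intro r s q D a b hab G d' hG σ hD S hS
      have h1 := h α hα ⟨(r, s, q), (a, b), G, hS.toFinset⟩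
      unfold prop at h1
      simp only [Set.Finite.coe_toFinset] at h1
      exact h1 (count_quasiFinite ω hab hG hD hS)
    · obtain ⟨X, hX, h⟩ := rays (prop K L ω (n := n)) (le_refl (0 : ℝ)) hθ0 hθ
      refine ⟨X, by rwa [zero_div, add_zero, ENNReal.ofReal_one] at hX, fun α hα => ?_⟩
      intro r s q D a b hab G d' hG σ hD S hS
      have h1 := h α hα ⟨(r, s, q), (a, b), G, hS.toFinset⟩
      unfold prop at h1
      simp only [Set.Finite.coe_toFinset] at h1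
      exact h1 (count_quasiFinite ω hab hG hD hS)
  · intro K _ _ L _ _ _ N ω n hn
    have := countable_data K L n
    have hn1 : (1 : ℝ) ≤ n := by exact_mod_cast hn
    have hs : (0 : ℝ) ≤ ((n : ℝ) - 1) * N := mul_nonneg (by linarith) (Nat.cast_nonneg _)
    refine ⟨fun v τ θ hpos hτ hv hθ => ?_, fun θ hθ0 hθ => ?_⟩
    · obtain ⟨X, hX, h⟩ := windows (prop K L ω (n := n)) hs hpos hτ hv hθ
      refine ⟨X, hX, fun α hα => ?_⟩
      intro r s q q' a b hab G d' hG G' σ hE hN S hS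
      have h1 := h α hα ⟨(r, s, q), (a, b), G, hS.toFinset⟩
      unfold prop at h1
      simp only [Set.Finite.coe_toFinset] at h1
      exact h1 (count_entireIn ω hn hab hG hE hN hS)
    · obtain ⟨X, hX, h⟩ := rays (prop K L ω (n := n)) hs hθ0 hθ
      refine ⟨X, hX, fun α hα => ?_⟩
      intro r s q q' a b hab G d' hG G' σ hE hN S hS
      have h1 := h α hα ⟨(r, s, q), (a, b), G, hS.toFinset⟩
      unfold prop at h1
      simp only [Set.Finite.coe_toFinset] at h1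
      exact h1 (count_entireIn ω hn hab hG hE hN hS)

end Pool.Agent.Results.MP_e97a4d_nt.WindowsAndRays
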